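import Mathlib

set_option autoImplicit false

open MeasureTheory Filter Topology Complex

namespace Pool.Agent.H321.BC.V7A

/-- the kernel -/
noncomputable def k (θ t : ℝ) : ℝ := Real.exp (-θ * t) / (2 * Real.cosh (Real.pi * t))

lemma cosh_eq (t : ℝ) : 2 * Real.cosh (Real.pi * t) =
    Real.exp (-(Real.pi * t)) * (1 + Real.exp (2 * Real.pi * t)) := by
  rw [Real.cosh_eq, mul_add, ← Real.exp_add]
  have : -(Real.pi * t) + 2 * Real.pi * t = Real.pi * t := by ring
  rw [this]; ring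

lemma k_eq (θ t : ℝ) : k θ t = Real.exp (Real.pi * t - θ * t) / (1 + Real.exp (2 * Real.pi * t)) := by
  have h1 : (0 : ℝ) < 1 + Real.exp (2 * Real.pi * t) := by positivity
  rw [k, cosh_eq, div_eq_div_iff (by positivity) (by positivity)]
  have : Real.exp (Real.pi * t - θ * t) = Real.exp (Real.pi * t) * Real.exp (-θ * t) := by
    rw [← Real.exp_add]; congr 1; ring
  rw [this]
  have h2 : Real.exp (Real.pi * t) * Real.exp (-(Real.pi * t)) = 1 := by
    rw [← Real.exp_add]; simp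
  calc Real.exp (-θ * t) * (1 + Real.exp (2 * Real.pi * t))
      = (Real.exp (Real.pi * t) * Real.exp (-(Real.pi * t))) * Real.exp (-θ * t) *
        (1 + Real.exp (2 * Real.pi * t)) := by rw [h2]; ring
    _ = _ := by ring

/-- the substitution -/
noncomputable def u (t : ℝ) : ℝ := 1 / (1 + Real.exp (2 * Real.pi * t))

lemma u_pos (t : ℝ) : 0 < u t := by unfold u; positivity

lemma one_sub_u (t : ℝ) : 1 - u t = Real.exp (2 * Real.pi * t) / (1 + Real.exp (2 * Real.pi * t)) := by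
  have h1 : (0 : ℝ) < 1 + Real.exp (2 * Real.pi * t) := by positivity
  unfold u; field_simp; ring

lemma u_lt (t : ℝ) : 0 < 1 - u t := by rw [one_sub_u]; positivity

lemma u_image : u '' Set.univ = Set.Ioo 0 1 := by
  ext y
  constructor
  · rintro ⟨t, -, rfl⟩
    exact ⟨u_pos t, by linarith [u_lt t]⟩
  · rintro ⟨h0, h1⟩
    refine ⟨Real.log ((1 - y) / y) / (2 * Real.pi), trivial, ?_⟩
    unfold u
    have : 2 * Real.pi * (Real.log ((1 - y) / y) / (2 * Real.pi)) = Real.log ((1 - y) / y) := by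
      field_simp
    rw [this, Real.exp_log (div_pos (by linarith) h0)]
    field_simp
    ring

lemma u_inj : Set.InjOn u Set.univ := by
  intro a _ b _ h
  unfold u at h
  have h1 : (0 : ℝ) < 1 + Real.exp (2 * Real.pi * a) := by positivity
  have h2 : (0 : ℝ) < 1 + Real.exp (2 * Real.pi * b) := by positivity
  rw [div_eq_div_iff h1.ne' h2.ne'] at h
  have h3 : Real.exp (2 * Real.pi * a) = Real.exp (2 * Real.pi * b) := by linarith
  have h4 := Real.exp_injective h3
  have : (2 * Real.pi) ≠ 0 := by positivity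
  exact mul_left_cancel₀ this h4

/-- derivative -/
noncomputable def u' (t : ℝ) : ℝ := -(2 * Real.pi * Real.exp (2 * Real.pi * t)) /
  (1 + Real.exp (2 * Real.pi * t)) ^ 2

lemma u_deriv (t : ℝ) : HasDerivAt u (u' t) t := by
  have h1 : (0 : ℝ) < 1 + Real.exp (2 * Real.pi * t) := by positivity
  have h2 : HasDerivAt (fun t : ℝ => 1 + Real.exp (2 * Real.pi * t))
      (Real.exp (2 * Real.pi * t) * (2 * Real.pi)) t := by
    have := ((hasDerivAt_id t).const_mul (2 * Real.pi)).exp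
    simpa using this.const_add 1
  have h3 := h2.inv h1.ne'
  have h4 : HasDerivAt u (-(Real.exp (2 * Real.pi * t) * (2 * Real.pi)) /
      (1 + Real.exp (2 * Real.pi * t)) ^ 2) t := by
    refine h3.congr_of_eventuallyEq ?_
    filter_upwards with s
    simp [u]
  convert h4 using 1
  unfold u'
  ring

lemma abs_u' (t : ℝ) : |u' t| = 2 * Real.pi * (u t * (1 - u t)) := by
  have h1 : (0 : ℝ) < 1 + Real.exp (2 * Real.pi * t) := by positivity
  rw [one_sub_u, u, u', neg_div, abs_neg, abs_of_pos (by positivity)]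
  field_simp

lemma log_u (t : ℝ) : Real.log (u t) = -Real.log (1 + Real.exp (2 * Real.pi * t)) := by
  rw [u, one_div, Real.log_inv]

lemma log_one_sub_u (t : ℝ) : Real.log (1 - u t) =
    2 * Real.pi * t - Real.log (1 + Real.exp (2 * Real.pi * t)) := by
  have h1 : (0 : ℝ) < 1 + Real.exp (2 * Real.pi * t) := by positivity
  rw [one_sub_u, Real.log_div (Real.exp_pos _).ne' h1.ne', Real.log_exp]

lemma key (θ t : ℝ) : (u t) ^ ((1 + θ / Real.pi) / 2 - 1) *
    (1 - u t) ^ ((1 - (1 + θ / Real.pi) / 2) - 1) * (u t * (1 - u t)) = k θ t := by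
  have h1 : (0 : ℝ) < 1 + Real.exp (2 * Real.pi * t) := by positivity
  have hpi : Real.pi ≠ 0 := Real.pi_ne_zero
  rw [Real.rpow_sub_one (u_pos t).ne', Real.rpow_sub_one (u_lt t).ne']
  have e1 : (u t) ^ ((1 + θ / Real.pi) / 2) / u t *
    ((1 - u t) ^ (1 - (1 + θ / Real.pi) / 2) / (1 - u t)) * (u t * (1 - u t)) =
      (u t) ^ ((1 + θ / Real.pi) / 2) * (1 - u t) ^ (1 - (1 + θ / Real.pi) / 2) := by
    have := (u_pos t).ne'
    have := (u_lt t).ne'
    field_simp
  rw [e1, Real.rpow_def_of_pos (u_pos t), Real.rpow_def_of_pos (u_lt t), log_u, log_one_sub_u,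
    ← Real.exp_add, k_eq]
  have e2 : Real.exp (Real.pi * t - θ * t) / (1 + Real.exp (2 * Real.pi * t)) =
      Real.exp (Real.pi * t - θ * t - Real.log (1 + Real.exp (2 * Real.pi * t))) := by
    rw [Real.exp_sub _ (Real.log _), Real.exp_log h1]
  rw [e2]
  congr 1
  field_simp
  ring

/-- the beta integrand -/
noncomputable def g (θ : ℝ) (y : ℝ) : ℂ :=
  (y : ℂ) ^ ((((1 + θ / Real.pi) / 2 : ℝ) : ℂ) - 1) *
    (1 - (y : ℂ)) ^ ((1 - (((1 + θ / Real.pi) / 2 : ℝ) : ℂ)) - 1)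

lemma g_u (θ t : ℝ) : |u' t| • g θ (u t) = ((2 * Real.pi : ℝ) : ℂ) * (k θ t : ℂ) := by
  have e1 : g θ (u t) = (((u t) ^ ((1 + θ / Real.pi) / 2 - 1) *
    (1 - u t) ^ ((1 - (1 + θ / Real.pi) / 2) - 1) : ℝ) : ℂ) := by
    unfold g
    rw [Complex.ofReal_mul, Complex.ofReal_cpow (u_pos t).le, Complex.ofReal_cpow (u_lt t).le]
    push_cast
    rfl
  rw [e1, abs_u', ← key, real_smul]
  push_cast
  ring

lemma s_pos {θ : ℝ} (hθ : |θ| < Real.pi) : 0 < (1 + θ / Real.pi) / 2 ∧ (1 + θ / Real.pi) / 2 < 1 := by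
  have hp := Real.pi_pos
  obtain ⟨h1, h2⟩ := abs_lt.1 hθ
  have h3 : -1 < θ / Real.pi := by rw [lt_div_iff₀ hp]; linarith
  have h4 : θ / Real.pi < 1 := by rw [div_lt_iff₀ hp]; linarith
  constructor <;> linarith

lemma k_integrable' {θ : ℝ} (hθ : |θ| < Real.pi) : Integrable (fun t => (k θ t : ℂ)) := by
  obtain ⟨h1, h2⟩ := s_pos hθ
  have hb := betaIntegral_convergent (u := (((1 + θ / Real.pi) / 2 : ℝ) : ℂ))
    (v := 1 - (((1 + θ / Real.pi) / 2 : ℝ) : ℂ)) (by simpa using h1)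
    (by rw [Complex.sub_re, Complex.one_re, Complex.ofReal_re]; linarith)
  have hb' : IntegrableOn (g θ) (Set.Ioo 0 1) := by
    rw [intervalIntegrable_iff_integrableOn_Ioo_of_le zero_le_one] at hb
    exact hb
  rw [← u_image, integrableOn_image_iff_integrableOn_abs_deriv_smul MeasurableSet.univ
    (fun x _ => (u_deriv x).hasDerivWithinAt) u_inj] at hb'
  rw [integrableOn_univ] at hb'
  have := hb'.const_mul (((2 * Real.pi : ℝ) : ℂ)⁻¹)
  refine this.congr ?_
  filter_upwards with t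
  show (((2 * Real.pi : ℝ) : ℂ)⁻¹) * (|u' t| • g θ (u t)) = k θ t
  rw [g_u]
  have h3 : (((2 * Real.pi : ℝ) : ℂ)) ≠ 0 := by
    exact_mod_cast (by positivity : (2 * Real.pi) ≠ 0)
  field_simp

lemma k_integrable {θ : ℝ} (hθ : |θ| < Real.pi) : Integrable (k θ) := by
  have := (k_integrable' hθ).re
  simpa using this

lemma k_integral {θ : ℝ} (hθ : |θ| < Real.pi) :
    ∫ t : ℝ, (k θ t : ℂ) = 1 / (2 * Complex.cos (θ / 2)) := by
  obtain ⟨h1, h2⟩ := s_pos hθ
  have hpi : (Real.pi : ℂ) ≠ 0 := by exact_mod_cast Real.pi_ne_zero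
  have e1 : ∫ y in Set.Ioo (0 : ℝ) 1, g θ y = ((2 * Real.pi : ℝ) : ℂ) * ∫ t : ℝ, (k θ t : ℂ) := by
    rw [← u_image, integral_image_eq_integral_abs_deriv_smul MeasurableSet.univ
      (fun x _ => (u_deriv x).hasDerivWithinAt) u_inj, Measure.restrict_univ,
      ← integral_const_mul]
    refine integral_congr_ae ?_
    filter_upwards with t
    exact g_u θ t
  have e2 : ∫ y in Set.Ioo (0 : ℝ) 1, g θ y = betaIntegral ((((1 + θ / Real.pi) / 2 : ℝ) : ℂ))
      (1 - (((1 + θ / Real.pi) / 2 : ℝ) : ℂ)) := by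
    rw [betaIntegral, intervalIntegral.integral_of_le zero_le_one, integral_Ioc_eq_integral_Ioo]
    rfl
  have e3 := Gamma_mul_Gamma_eq_betaIntegral (s := (((1 + θ / Real.pi) / 2 : ℝ) : ℂ))
    (t := 1 - (((1 + θ / Real.pi) / 2 : ℝ) : ℂ)) (by simpa using h1)
    (by rw [Complex.sub_re, Complex.one_re, Complex.ofReal_re]; linarith)
  rw [Complex.Gamma_mul_Gamma_one_sub, ← e2, e1, add_sub_cancel, Complex.Gamma_one, one_mul] at e3
  have e4 : Complex.sin (Real.pi * (((1 + θ / Real.pi) / 2 : ℝ) : ℂ)) = Complex.cos (θ / 2) := by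
    have : (Real.pi : ℂ) * (((1 + θ / Real.pi) / 2 : ℝ) : ℂ) = θ / 2 + Real.pi / 2 := by
      push_cast
      field_simp
      ring
    rw [this, Complex.sin_add_pi_div_two]
  rw [e4] at e3
  have e5 : ((2 * Real.pi : ℝ) : ℂ) ≠ 0 := by exact_mod_cast (by positivity : (2 * Real.pi) ≠ 0)
  have e6 : ∫ t : ℝ, (k θ t : ℂ) = (Real.pi / Complex.cos (θ / 2)) / ((2 * Real.pi : ℝ) : ℂ) := by
    rw [e3]; field_simp
  rw [e6]
  push_cast
  field_simp

end Pool.Agent.H321.BC.V7A
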