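import Pool.Agent.H321.BC.V7A

set_option autoImplicit false

open MeasureTheory Filter Topology Complex

namespace Pool.Agent.H321.BC.V7A

/-- `sinh (π z) / z` -/
noncomputable def S : ℂ → ℂ := dslope (fun z : ℂ => Complex.sinh (Real.pi * z)) 0

lemma sinh_diff : Differentiable ℂ (fun z : ℂ => Complex.sinh (Real.pi * z)) :=
  (differentiable_id.const_mul _).csinh

lemma dslope_diff {F : ℂ → ℂ} (hF : Differentiable ℂ F) : Differentiable ℂ (dslope F 0) := by
  rw [← differentiableOn_univ]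
  exact (Complex.differentiableOn_dslope univ_mem).2 hF.differentiableOn

lemma S_diff : Differentiable ℂ S := dslope_diff sinh_diff

lemma S_zero : S 0 = Real.pi := by
  have h : HasDerivAt (fun z : ℂ => Complex.sinh (Real.pi * z)) (Real.pi : ℂ) 0 := by
    have h1 := ((hasDerivAt_id (0 : ℂ)).const_mul (Real.pi : ℂ)).csinh
    simpa using h1
  rw [S, dslope_same]
  exact h.deriv

lemma S_of_ne {z : ℂ} (hz : z ≠ 0) : S z = Complex.sinh (Real.pi * z) / z := by
  rw [S, dslope_of_ne _ hz, slope_def_field]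
  simp

lemma sinh_ne {z : ℂ} (hz : z ≠ 0) (h : |z.im| < 1) : Complex.sinh (Real.pi * z) ≠ 0 := by
  intro h0
  have h1 : Complex.sin (Real.pi * z * I) = 0 := by rw [Complex.sin_mul_I, h0, zero_mul]
  obtain ⟨n, hn⟩ := Complex.sin_eq_zero_iff.1 h1
  have hpi : (Real.pi : ℂ) ≠ 0 := by exact_mod_cast Real.pi_ne_zero
  have h2 : z * I = n := by
    apply mul_left_cancel₀ hpi
    rw [← mul_assoc, hn, mul_comm]
  have h3 : z = -(n : ℂ) * I := by
    calc z = -(z * I) * I := by rw [neg_mul, mul_assoc, I_mul_I]; ring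
      _ = _ := by rw [h2]
  have h4 : z.im = -(n : ℝ) := by rw [h3]; simp
  rw [h4, abs_neg] at h
  have h5 : |n| < 1 := by exact_mod_cast h
  rw [Int.abs_lt_one_iff] at h5
  apply hz
  rw [h3, h5]; simp

lemma S_ne {z : ℂ} (h : |z.im| < 1) : S z ≠ 0 := by
  by_cases hz : z = 0
  · rw [hz, S_zero]; exact_mod_cast Real.pi_ne_zero
  · rw [S_of_ne hz]; exact div_ne_zero (sinh_ne hz h) hz

/-- the integrand -/
noncomputable def Hf (θ : ℝ) (F : ℂ → ℂ) (z : ℂ) : ℂ := cexp (-θ * z) * dslope F 0 z / (2 * I * S z)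

lemma Hf_of_ne (θ : ℝ) (F : ℂ → ℂ) (h0 : F 0 = 0) {z : ℂ} (hz : z ≠ 0) :
    Hf θ F z = cexp (-θ * z) * F z / (2 * I * Complex.sinh (Real.pi * z)) := by
  rw [Hf, S_of_ne hz, dslope_of_ne _ hz, slope_def_field, h0, sub_zero, sub_zero]
  by_cases h : Complex.sinh (Real.pi * z) = 0
  · simp [h]
  · field_simp

lemma Hf_diff (θ : ℝ) {F : ℂ → ℂ} (hF : Differentiable ℂ F) {z : ℂ} (h : |z.im| < 1) :
    DifferentiableAt ℂ (Hf θ F) z := by
  unfold Hf
  refine DifferentiableAt.div ?_ ?_ ?_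
  · exact ((differentiableAt_id.const_mul _).cexp).mul (dslope_diff hF z)
  · exact (S_diff z).const_mul _
  · exact mul_ne_zero (mul_ne_zero two_ne_zero I_ne_zero) (S_ne h)

lemma norm_sinh_ge (w : ℂ) : Real.sinh |w.re| ≤ ‖Complex.sinh w‖ := by
  have h1 : ‖Complex.sinh w‖ = ‖cexp w - cexp (-w)‖ / 2 := by
    rw [Complex.sinh, norm_div]; simp
  have h2 := abs_norm_sub_norm_le (cexp w) (cexp (-w))
  rw [Complex.norm_exp, Complex.norm_exp, Complex.neg_re] at h2
  rw [h1]
  have h3 : Real.sinh |w.re| = |Real.exp w.re - Real.exp (-w.re)| / 2 := by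
    rw [← Real.abs_sinh, Real.sinh_eq, abs_div, abs_two]
  rw [h3]
  linarith

lemma sinh_big {a : ℝ} (ha : 1 ≤ a) : Real.exp a / 4 ≤ Real.sinh a := by
  rw [Real.sinh_eq]
  have h1 : Real.exp (-a) ≤ Real.exp (-1) := Real.exp_le_exp.2 (by linarith)
  have h2 : Real.exp (-1 : ℝ) ≤ 1 / 2 := by
    rw [Real.exp_neg, one_div]
    apply inv_anti₀ (by norm_num)
    have := Real.add_one_le_exp (1 : ℝ)
    linarith
  have h3 : (2 : ℝ) ≤ Real.exp a := by
    have := Real.add_one_le_exp a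
    linarith
  linarith

lemma Hf_bound (θ : ℝ) {F : ℂ → ℂ} (h0 : F 0 = 0) {C : ℝ} (hC : ∀ z : ℂ, |z.im| ≤ 1 / 2 → ‖F z‖ ≤ C)
    {z : ℂ} (hz : |z.im| ≤ 1 / 2) (hre : 1 ≤ |z.re|) :
    ‖Hf θ F z‖ ≤ 2 * C * Real.exp (-((Real.pi - |θ|) * |z.re|)) := by
  have hz0 : z ≠ 0 := by
    rintro rfl; simp at hre; linarith
  have hC0 : 0 ≤ C := (norm_nonneg _).trans (hC z hz)
  have hpi : (1 : ℝ) ≤ Real.pi := by linarith [Real.pi_gt_three]
  have hp := Real.pi_pos
  rw [Hf_of_ne θ F h0 hz0, norm_div, norm_mul, norm_mul, norm_mul, Complex.norm_exp]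
  have e1 : (-(θ : ℂ) * z).re = -θ * z.re := by
    simp
  have e2 : Real.exp (-θ * z.re) ≤ Real.exp (|θ| * |z.re|) := by
    apply Real.exp_le_exp.2
    rw [← abs_mul]
    have := neg_abs_le (θ * z.re)
    linarith
  have e3 : Real.exp (Real.pi * |z.re|) / 4 ≤ ‖Complex.sinh (Real.pi * z)‖ := by
    have h1 := norm_sinh_ge (Real.pi * z)
    have h2 : ((Real.pi : ℂ) * z).re = Real.pi * z.re := by simp
    rw [h2, abs_mul, abs_of_pos hp] at h1
    refine (sinh_big ?_).trans h1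
    nlinarith
  have e4 : ‖(2 : ℂ)‖ * ‖I‖ * ‖Complex.sinh (Real.pi * z)‖ = 2 * ‖Complex.sinh (Real.pi * z)‖ := by
    simp
  rw [e1, e4]
  have e5 : 0 < Real.exp (Real.pi * |z.re|) := Real.exp_pos _
  have e7 : (0 : ℝ) < 2 * ‖Complex.sinh (Real.pi * z)‖ := by linarith
  rw [div_le_iff₀ e7]
  have e6 : Real.exp (-((Real.pi - |θ|) * |z.re|)) * Real.exp (Real.pi * |z.re|) =
      Real.exp (|θ| * |z.re|) := by
    rw [← Real.exp_add]; congr 1; ring
  calc Real.exp (-θ * z.re) * ‖F z‖ ≤ Real.exp (|θ| * |z.re|) * C :=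
        mul_le_mul e2 (hC z hz) (norm_nonneg _) (Real.exp_pos _).le
    _ = 2 * C * Real.exp (-((Real.pi - |θ|) * |z.re|)) * (2 * (Real.exp (Real.pi * |z.re|) / 4)) := by
        rw [← e6]; ring
    _ ≤ _ := by
        apply mul_le_mul_of_nonneg_left _ (by positivity)
        linarith

lemma Hf_lower (θ : ℝ) {F : ℂ → ℂ} (h0 : F 0 = 0) (x : ℝ) :
    Hf θ F (x - I / 2) = (k θ x : ℂ) * (cexp (I * θ / 2) * F (x - I / 2)) := by
  have hz0 : (x : ℂ) - I / 2 ≠ 0 := by
    intro h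
    have := congrArg Complex.im h
    simp at this
  rw [Hf_of_ne θ F h0 hz0]
  have e1 : Complex.sinh (Real.pi * (x - I / 2)) = -I * Complex.cosh (Real.pi * x) := by
    have : (Real.pi : ℂ) * (x - I / 2) = Real.pi * x - (Real.pi / 2) * I := by ring
    rw [this, Complex.sinh_sub, Complex.cosh_mul_I, Complex.sinh_mul_I, Complex.cos_pi_div_two,
      Complex.sin_pi_div_two]
    ring
  have e2 : cexp (-θ * (x - I / 2)) = cexp (-θ * x) * cexp (I * θ / 2) := by
    rw [← Complex.exp_add]; congr 1; ring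
  have e3 : (k θ x : ℂ) = cexp (-θ * x) / (2 * Complex.cosh (Real.pi * x)) := by
    unfold k; push_cast; rfl
  have e4 : Complex.cosh (Real.pi * x) ≠ 0 := by
    have : Complex.cosh (Real.pi * x) = ((Real.cosh (Real.pi * x) : ℝ) : ℂ) := by push_cast; rfl
    rw [this]
    exact_mod_cast (Real.cosh_pos _).ne'
  rw [e1, e2, e3]
  have e5 : 2 * I * (-I * Complex.cosh (Real.pi * x)) = 2 * Complex.cosh (Real.pi * x) := by
    have : 2 * I * (-I * Complex.cosh (Real.pi * x)) = -(I * I) * (2 * Complex.cosh (Real.pi * x)) := by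
      ring
    rw [this, I_mul_I]; ring
  rw [e5]
  field_simp

lemma Hf_upper (θ : ℝ) {F : ℂ → ℂ} (h0 : F 0 = 0) (x : ℝ) :
    Hf θ F (x + I / 2) = -((k θ x : ℂ) * (cexp (-(I * θ / 2)) * F (x + I / 2))) := by
  have hz0 : (x : ℂ) + I / 2 ≠ 0 := by
    intro h
    have := congrArg Complex.im h
    simp at this
  rw [Hf_of_ne θ F h0 hz0]
  have e1 : Complex.sinh (Real.pi * (x + I / 2)) = I * Complex.cosh (Real.pi * x) := by
    have : (Real.pi : ℂ) * (x + I / 2) = Real.pi * x + (Real.pi / 2) * I := by ring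
    rw [this, Complex.sinh_add, Complex.cosh_mul_I, Complex.sinh_mul_I, Complex.cos_pi_div_two,
      Complex.sin_pi_div_two]
    ring
  have e2 : cexp (-θ * (x + I / 2)) = cexp (-θ * x) * cexp (-(I * θ / 2)) := by
    rw [← Complex.exp_add]; congr 1; ring
  have e3 : (k θ x : ℂ) = cexp (-θ * x) / (2 * Complex.cosh (Real.pi * x)) := by
    unfold k; push_cast; rfl
  have e4 : Complex.cosh (Real.pi * x) ≠ 0 := by
    have : Complex.cosh (Real.pi * x) = ((Real.cosh (Real.pi * x) : ℝ) : ℂ) := by push_cast; rfl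
    rw [this]
    exact_mod_cast (Real.cosh_pos _).ne'
  rw [e1, e2, e3]
  have e5 : 2 * I * (I * Complex.cosh (Real.pi * x)) = -(2 * Complex.cosh (Real.pi * x)) := by
    have : 2 * I * (I * Complex.cosh (Real.pi * x)) = (I * I) * (2 * Complex.cosh (Real.pi * x)) := by
      ring
    rw [this, I_mul_I]; ring
  rw [e5]
  field_simp

lemma vert (θ : ℝ) {F : ℂ → ℂ} (h0 : F 0 = 0) {C : ℝ} (hC : ∀ z : ℂ, |z.im| ≤ 1 / 2 → ‖F z‖ ≤ C)
    (N : ℝ) (hN : 1 ≤ |N|) :
    ‖∫ y : ℝ in (-(1/2) : ℝ)..(1/2), Hf θ F (N + y * I)‖ ≤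
      2 * C * Real.exp (-((Real.pi - |θ|) * |N|)) := by
  have := intervalIntegral.norm_integral_le_of_norm_le_const (a := (-(1/2) : ℝ)) (b := (1/2 : ℝ))
    (f := fun y : ℝ => Hf θ F (N + y * I)) (C := 2 * C * Real.exp (-((Real.pi - |θ|) * |N|))) ?_
  · refine this.trans (le_of_eq ?_)
    norm_num
  · intro y hy
    rw [Set.uIoc_of_le (by norm_num)] at hy
    have e1 : ((N : ℂ) + y * I).re = N := by simp
    have e2 : ((N : ℂ) + y * I).im = y := by simp
    have := Hf_bound θ h0 hC (z := (N : ℂ) + y * I) (by rw [e2, abs_le]; exact ⟨hy.1.le, hy.2⟩)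
      (by rw [e1]; exact hN)
    rwa [e1] at this

lemma integrable_kF {θ : ℝ} (hθ : |θ| < Real.pi) {g : ℝ → ℂ} (hg : Continuous g) {C : ℝ}
    (hC : ∀ t, ‖g t‖ ≤ C) : Integrable (fun t : ℝ => (k θ t : ℂ) * g t) := by
  have h := (k_integrable' hθ).bdd_mul (c := C) hg.aestronglyMeasurable (ae_of_all _ hC)
  refine h.congr ?_
  filter_upwards with t
  ring

lemma contour {θ : ℝ} (hθ : |θ| < Real.pi) {F : ℂ → ℂ} (hF : Differentiable ℂ F) {C : ℝ}
    (hC : ∀ z : ℂ, |z.im| ≤ 1 / 2 → ‖F z‖ ≤ C) (h0 : F 0 = 0) :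
    ∫ t : ℝ, (k θ t : ℂ) * (cexp (I * θ / 2) * F (t - I / 2) + cexp (-(I * θ / 2)) * F (t + I / 2))
      = 0 := by
  have him1 : ∀ t : ℝ, ((t : ℂ) - I / 2).im = -(1 / 2) := by intro t; simp
  have him2 : ∀ t : ℝ, ((t : ℂ) + I / 2).im = 1 / 2 := by intro t; simp
  have hgc : Continuous fun t : ℝ => (cexp (I * θ / 2) * F (t - I / 2) +
      cexp (-(I * θ / 2)) * F (t + I / 2)) := by
    have := hF.continuous
    fun_prop
  have hint : Integrable fun t : ℝ => (k θ t : ℂ) * (cexp (I * θ / 2) * F (t - I / 2) +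
      cexp (-(I * θ / 2)) * F (t + I / 2)) := by
    refine integrable_kF hθ hgc (C := ‖cexp (I * θ / 2)‖ * C + ‖cexp (-(I * θ / 2))‖ * C) ?_
    intro t
    refine (norm_add_le _ _).trans ?_
    rw [norm_mul, norm_mul]
    gcongr
    · apply hC; rw [him1]; norm_num
    · apply hC; rw [him2]; norm_num
  have hlim := intervalIntegral_tendsto_integral hint tendsto_neg_atTop_atBot tendsto_id
  refine tendsto_nhds_unique hlim ?_
  have hrect : ∀ N : ℝ, ∫ x in (-N)..(id N), (k θ x : ℂ) * (cexp (I * θ / 2) * F (x - I / 2) +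
      cexp (-(I * θ / 2)) * F (x + I / 2)) =
      I * (∫ y : ℝ in (-(1/2) : ℝ)..(1/2), Hf θ F ((-N : ℝ) + y * I)) -
      I * (∫ y : ℝ in (-(1/2) : ℝ)..(1/2), Hf θ F (N + y * I)) := by
    intro N
    have h := Complex.integral_boundary_rect_eq_zero_of_differentiableOn (Hf θ F)
      ⟨-N, -(1/2)⟩ ⟨N, 1/2⟩ ?_
    · simp only [] at h
      have e1 : ∀ x : ℝ, Hf θ F (x + ((-(1/2) : ℝ) : ℂ) * I) =
          (k θ x : ℂ) * (cexp (I * θ / 2) * F (x - I / 2)) := by
        intro x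
        rw [← Hf_lower θ h0]
        congr 1
        push_cast; ring
      have e2 : ∀ x : ℝ, Hf θ F (x + ((1/2 : ℝ) : ℂ) * I) =
          -((k θ x : ℂ) * (cexp (-(I * θ / 2)) * F (x + I / 2))) := by
        intro x
        rw [← Hf_upper θ h0]
        congr 1
        push_cast; ring
      simp only [e1, e2, smul_eq_mul] at h
      have c1 : Continuous fun x : ℝ => (k θ x : ℂ) := by
        have : Continuous (k θ) := by
          unfold k
          refine Continuous.div (by fun_prop) (by fun_prop) ?_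
          intro x
          have := Real.cosh_pos (Real.pi * x)
          positivity
        exact Complex.continuous_ofReal.comp this
      have hFc := hF.continuous
      rw [intervalIntegral.integral_neg, sub_neg_eq_add, ← intervalIntegral.integral_add
        (Continuous.intervalIntegrable (by fun_prop) _ _)
        (Continuous.intervalIntegrable (by fun_prop) _ _)] at h
      simp only [← mul_add] at h
      simp only [id]
      linear_combination h
    · intro z hz
      refine (Hf_diff θ hF ?_).differentiableWithinAt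
      have h2 : z.im ∈ Set.uIcc (-(1/2) : ℝ) (1/2) := hz.2
      rw [Set.uIcc_of_le (by norm_num)] at h2
      rw [abs_lt]
      constructor <;> linarith [h2.1, h2.2]
  have hz : Tendsto (fun N : ℝ => 2 * (2 * C * Real.exp (-((Real.pi - |θ|) * N)))) atTop (𝓝 0) := by
    have h1 : Tendsto (fun N : ℝ => (Real.pi - |θ|) * N) atTop atTop :=
      tendsto_id.const_mul_atTop (by linarith)
    have h2 := (Real.tendsto_exp_neg_atTop_nhds_zero.comp h1).const_mul (2 * (2 * C))
    rw [mul_zero] at h2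
    refine h2.congr ?_
    intro N
    simp only [Function.comp]
    ring
  refine squeeze_zero_norm' ?_ hz
  filter_upwards [eventually_ge_atTop (1 : ℝ)] with N hN
  rw [hrect N]
  have hN' : |N| = N := abs_of_pos (by linarith)
  have h1 := vert θ h0 hC N (by rw [hN']; exact hN)
  have h2 := vert θ h0 hC (-N) (by rw [abs_neg, hN']; exact hN)
  rw [abs_neg] at h2
  rw [hN'] at h1 h2
  refine (norm_sub_le _ _).trans ?_
  rw [norm_mul, norm_mul, Complex.norm_I, one_mul, one_mul]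
  linarith

theorem transform {θ : ℝ} (hθ : |θ| < Real.pi) {G : ℂ → ℂ} (hG : Differentiable ℂ G) {C : ℝ}
    (hC : ∀ z : ℂ, |z.im| ≤ 1 / 2 → ‖G z‖ ≤ C) :
    ∫ t : ℝ, (k θ t : ℂ) * (cexp (I * θ / 2) * G (t - I / 2) + cexp (-(I * θ / 2)) * G (t + I / 2))
      = G 0 := by
  have hF : Differentiable ℂ (fun z => G z - G 0) := hG.sub_const _
  have h1 := contour hθ hF (C := C + ‖G 0‖) (fun z hz => (norm_sub_le _ _).trans
    (by gcongr; exact hC z hz)) (by simp)
  have h2 := k_integral hθ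
  have hcos : Complex.cos (θ / 2) ≠ 0 := by
    have h3 : Complex.cos (θ / 2) = ((Real.cos (θ / 2) : ℝ) : ℂ) := by push_cast; rfl
    rw [h3]
    have h4 : 0 < Real.cos (θ / 2) := by
      obtain ⟨a, b⟩ := abs_lt.1 hθ
      apply Real.cos_pos_of_mem_Ioo
      constructor <;> linarith
    exact_mod_cast h4.ne'
  have h3 : cexp (I * θ / 2) + cexp (-(I * θ / 2)) = 2 * Complex.cos (θ / 2) := by
    rw [Complex.cos]
    have e1 : (θ : ℂ) / 2 * I = I * θ / 2 := by ring
    have e2 : -((θ : ℂ) / 2) * I = -(I * θ / 2) := by ring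
    rw [e1, e2]; ring
  have hGc := hG.continuous
  have hi1 : Integrable fun t : ℝ => (k θ t : ℂ) * (cexp (I * θ / 2) * (G (t - I / 2) - G 0) +
      cexp (-(I * θ / 2)) * (G (t + I / 2) - G 0)) := by
    refine integrable_kF hθ (by fun_prop) (C := ‖cexp (I * θ / 2)‖ * (C + ‖G 0‖) +
      ‖cexp (-(I * θ / 2))‖ * (C + ‖G 0‖)) ?_
    intro t
    refine (norm_add_le _ _).trans ?_
    rw [norm_mul, norm_mul]
    gcongr
    · refine (norm_sub_le _ _).trans ?_
      gcongr
      apply hC; norm_num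
    · refine (norm_sub_le _ _).trans ?_
      gcongr
      apply hC; norm_num
  have hi2 : Integrable fun t : ℝ => (k θ t : ℂ) * (2 * Complex.cos (θ / 2) * G 0) :=
    (k_integrable' hθ).mul_const _
  calc ∫ t : ℝ, (k θ t : ℂ) * (cexp (I * θ / 2) * G (t - I / 2) +
        cexp (-(I * θ / 2)) * G (t + I / 2))
      = ∫ t : ℝ, ((k θ t : ℂ) * (cexp (I * θ / 2) * (G (t - I / 2) - G 0) +
        cexp (-(I * θ / 2)) * (G (t + I / 2) - G 0)) +
        (k θ t : ℂ) * (2 * Complex.cos (θ / 2) * G 0)) := by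
          congr 1
          ext t
          rw [← h3]; ring
    _ = 0 + (1 / (2 * Complex.cos (θ / 2))) * (2 * Complex.cos (θ / 2) * G 0) := by
          rw [integral_add hi1 hi2, h1, integral_mul_const, h2]
    _ = G 0 := by field_simp; ring

end Pool.Agent.H321.BC.V7A
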